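import Pool.Agent.H.MP_9641f2_gt.Defs

set_option autoImplicit false

namespace Pool.Agent.H.MP_9641f2_gt

open Set Topology

universe u v

theorem closeOff {I : Type u} (K : Set I → Set I) (hK : ∀ R, R.Finite → (K R).Countable) :
    ∃ A : Set I, A.Countable ∧ ∀ R, R.Finite → R ⊆ A → K R ⊆ A := by
  let s : ℕ → Set I := fun n => Nat.rec ∅ (fun _ A => A ∪ ⋃ R ∈ {R | R.Finite ∧ R ⊆ A}, K R) n
  have c : ∀ n, (s n).Countable := fun n => by
    induction n with
    | zero => exact countable_empty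
    | succ n ih => exact ih.union ((countable_setOf_finite_subset ih).biUnion fun R h => hK R h.1)
  have m : Monotone s := monotone_nat_of_le_succ fun n => subset_union_left
  refine ⟨⋃ n, s n, countable_iUnion c, fun R h1 h2 => ?_⟩
  choose! f hf using fun j (hj : j ∈ R) => mem_iUnion.1 (h2 hj)
  obtain ⟨n, hn⟩ := (h1.image f).bddAbove
  refine fun j hj => mem_iUnion.2 ⟨n + 1, Or.inr (mem_biUnion (x := R)
    ⟨h1, fun j hj => m (hn ⟨j, hj, rfl⟩) (hf j hj)⟩ hj)⟩

theorem eq_univ {I : Type u} {X : I → Type v} [∀ i, TopologicalSpace (X i)]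
    [∀ i, T1Space (X i)] {D : Set (∀ i, X i)} [ParacompactSpace D] (p : ∀ i, X i)
    (hD : ∀ (x : ∀ i, X i) (K : Set I), K.Countable → ∃ d : D, ∀ j ∈ K, d.1 j = x j) : p ∈ D := by
  classical
  by_contra hp
  obtain ⟨v, v1, v2, v3, v4⟩ := precise_refinement (fun i => {d : D | d.1 i ≠ p i})
    (fun i => isOpen_ne.preimage ((continuous_apply i).comp continuous_subtype_val))
    (eq_univ_of_forall fun d => by
      by_contra h
      simp only [mem_iUnion, mem_setOf_eq, not_exists, not_not] at h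
      exact hp (funext h ▸ d.2))
  have : ∀ d : D, ∃ i, ∃ J : Set I, J.Finite ∧ i ∈ J ∧
      ∀ e : D, (∀ j ∈ J, e.1 j = d.1 j) → e ∈ v i := by
    intro d
    obtain ⟨i, hi⟩ := mem_iUnion.1 (v2 ▸ mem_univ d : d ∈ ⋃ i, v i)
    obtain ⟨U, u1, u2⟩ := isOpen_induced_iff.1 (v1 i)
    rw [← u2] at hi
    obtain ⟨J, w, w1, w2⟩ := isOpen_pi_iff.1 u1 _ hi
    refine ⟨i, insert i J, J.finite_toSet.insert i, Or.inl rfl, fun e he => ?_⟩
    rw [← u2]
    exact w2 fun j hj => by rw [he j (Or.inr hj)]; exact (w1 j hj).2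
  choose ι J j1 j2 j3 using this
  obtain ⟨R, r1, r2⟩ : ∃ R : Set I, R.Finite ∧ ∀ K : Set I, K.Countable →
      ∃ d : D, (∀ j ∈ K, d.1 j = p j) ∧ J d ∩ K ⊆ R := by
    by_contra h
    push Not at h
    choose! K k1 k2 using h
    obtain ⟨A, a1, a2⟩ := closeOff K k1
    obtain ⟨d, hd⟩ := hD p A a1
    have f := (j1 d).inter_of_left A
    have s := a2 _ f inter_subset_right
    exact k2 _ f d (fun j hj => hd j (s hj)) (inter_subset_inter_right _ s)
  choose δ d1 d2 using r2
  let K : ℕ → {K : Set I // K.Countable} := fun n => Nat.rec ⟨R, r1.countable⟩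
    (fun _ K => ⟨K.1 ∪ J (δ K.1 K.2), K.2.union (j1 _).countable⟩) n
  let d : ℕ → D := fun n => δ (K n).1 (K n).2
  have m : Monotone fun n => (K n).1 := monotone_nat_of_le_succ fun n => subset_union_left
  have JK : ∀ a b, a < b → J (d a) ⊆ (K b).1 := fun a b h =>
    (subset_union_right : _ ⊆ (K (a + 1)).1).trans (m h)
  let x : ∀ i, X i := fun j => if h : ∃ n, j ∈ J (d n) then (d (Nat.find h)).1 j else p j
  obtain ⟨e, he⟩ := hD x (⋃ n, J (d n)) (countable_iUnion fun n => (j1 _).countable)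
  have ev : ∀ n, e ∈ v (ι (d n)) := fun n => j3 _ _ fun j hj => by
    have h : ∃ n, j ∈ J (d n) := ⟨n, hj⟩
    rw [he j (mem_iUnion.2 h)]
    simp only [x, dif_pos h]
    rcases (Nat.find_min' h hj).eq_or_lt with c | c
    · rw [c]
    · have hR : j ∈ R := d2 _ _ ⟨hj, JK _ _ c (Nat.find_spec h)⟩
      exact (d1 _ _ j (m (Nat.zero_le _) hR)).trans (d1 _ _ j (m (Nat.zero_le n) hR)).symm
  refine infinite_of_injective_forall_mem (f := fun n => ι (d n)) ?_ ev (v3.point_finite e)
  have : ∀ a b, a < b → ι (d a) ≠ ι (d b) := fun a b h c =>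
    v4 _ (j3 (d b) (d b) fun _ _ => rfl) (c ▸ d1 _ _ _ (JK a b h (j2 _)))
  exact fun a b c => by_contra fun h => (Nat.lt_or_gt_of_ne h).elim
    (fun h => this _ _ h c) fun h => this _ _ h c.symm

theorem partA {I : Type u} {X : I → Type v} [∀ i, TopologicalSpace (X i)] [T1Space (∀ i, X i)]
    (D : Set (∀ i, X i)) (hD : FillsCountable D) [T2Space D] [ParacompactSpace D] (i : I) :
    T2Space (X i) ∧ ParacompactSpace (X i) := by
  classical
  rcases isEmpty_or_nonempty (X i) with h | ⟨⟨a⟩⟩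
  · exact ⟨inferInstance, inferInstance⟩
  obtain ⟨p, -, -⟩ := hD {i} ⟨i, rfl⟩ (countable_singleton i) fun j => j.2.symm ▸ a
  haveI : ∀ j, T1Space (X j) := fun j => t1Space_of_injective_of_continuous
    (Function.update_injective p j) (continuous_const.update j continuous_id)
  have : D = univ := eq_univ_of_forall fun q => eq_univ q fun x K hK => by
    obtain ⟨d, h1, h2⟩ := hD (insert i K) ⟨i, Or.inl rfl⟩ (hK.insert i) fun j => x j
    exact ⟨⟨d, h1⟩, fun j hj => h2 ⟨j, Or.inr hj⟩⟩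
  subst this
  have e := (Homeomorph.Set.univ (∀ i, X i)).symm.isClosedEmbedding.comp
    (isClosedEmbedding_update p i)
  exact ⟨e.isEmbedding.t2Space, e.paracompactSpace⟩

end Pool.Agent.H.MP_9641f2_gt
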