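import Pool.Agent.H.MP_9641f2_gt.A

set_option autoImplicit false

namespace Pool.Agent.H.MP_9641f2_gt

open Set Topology
open Cardinal hiding univ

/-- factor `none` is `Y`, the other factors are `Y` with the discrete topology -/
def Fam (Y ι : Type) (_ : Option ι) : Type := Y

section
variable {Y ι : Type} [t : TopologicalSpace Y]

instance (i : Option ι) : TopologicalSpace (Fam Y ι i) :=
  match i with
  | none => t
  | some _ => ⊥

def pr (z : ∀ i, Fam Y ι i) : Y := z none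
def co (z : ∀ i, Fam Y ι i) (b : ι) : Y := z (some b)
def mk' (y : Y) (w : ι → Y) : ∀ i, Fam Y ι i := fun i => (i.elim y w : Y)

instance (b : ι) : DiscreteTopology (Fam Y ι (some b)) := ⟨rfl⟩

instance [h : T1Space Y] (i : Option ι) : T1Space (Fam Y ι i) :=
  match i with
  | none => h
  | some _ => inferInstance

instance [h : T2Space Y] (i : Option ι) : T2Space (Fam Y ι i) :=
  match i with
  | none => h
  | some _ => inferInstance

theorem cpr : Continuous (pr : (∀ i, Fam Y ι i) → Y) := continuous_apply none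

variable {D : Set (∀ i, Fam Y ι i)}

def Ag (J : Finset ι) (z w : ι → Y) : Prop := ∀ b ∈ J, z b = w b

theorem clAg (J : Finset ι) (w : ι → Y) : IsClopen {e : D | Ag J (co e.1) w} := by
  have : {e : D | Ag J (co e.1) w} = ⋂ b ∈ J, (fun e : D => e.1 (some b)) ⁻¹' {w b} := by
    ext; simp only [mem_iInter]; rfl
  rw [this]
  exact isClopen_biInter_finset fun b _ => (isClopen_discrete _).preimage
    ((continuous_apply _).comp continuous_subtype_val)

theorem open_iff {S : Set D} : IsOpen S ↔ ∀ d ∈ S, ∃ V : Set Y, IsOpen V ∧ pr d.1 ∈ V ∧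
    ∃ J : Finset ι, ∀ e : D, pr e.1 ∈ V → Ag J (co e.1) (co d.1) → e ∈ S := by
  classical
  constructor
  · intro h d hd
    obtain ⟨U, u1, rfl⟩ := isOpen_induced_iff.1 h
    obtain ⟨J, w, w1, w2⟩ := isOpen_pi_iff.1 u1 _ hd
    refine ⟨if none ∈ J then w none else univ, ?_, ?_, J.eraseNone, fun e h1 h2 => w2 ?_⟩
    · split_ifs with c
      exacts [(w1 _ c).1, isOpen_univ]
    · split_ifs with c
      exacts [(w1 _ c).2, trivial]
    · rintro (_ | b) hj
      · rw [if_pos (Finset.mem_coe.1 hj)] at h1; exact h1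
      · have : e.1 (some b) = d.1 (some b) := h2 b (Finset.mem_eraseNone.2 hj)
        rw [this]; exact (w1 _ hj).2
  · intro h
    refine isOpen_iff_forall_mem_open.2 fun d hd => ?_
    obtain ⟨V, v1, v2, J, hJ⟩ := h d hd
    exact ⟨(fun e : D => pr e.1) ⁻¹' V ∩ {e | Ag J (co e.1) (co d.1)}, fun e he => hJ e he.1 he.2,
      (v1.preimage (cpr.comp continuous_subtype_val)).inter (clAg J _).isOpen, v2, fun _ _ => rfl⟩

theorem zd (h : ∀ (d : D) (V : Set Y), IsOpen V → pr d.1 ∈ V →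
      ∃ C : Set D, IsClopen C ∧ d ∈ C ∧ ∀ e ∈ C, pr e.1 ∈ V)
    (d : D) (S : Set D) (hS : IsOpen S) (hd : d ∈ S) : ∃ C, IsClopen C ∧ d ∈ C ∧ C ⊆ S := by
  obtain ⟨V, v1, v2, J, hJ⟩ := open_iff.1 hS d hd
  obtain ⟨C, c1, c2, c3⟩ := h d V v1 v2
  exact ⟨C ∩ {e | Ag J (co e.1) (co d.1)}, c1.inter (clAg J _), ⟨c2, fun _ _ => rfl⟩,
    fun e he => hJ e (c3 e he.1) he.2⟩

omit t in
theorem fill (P : Set (Option ι) → Prop) [Nonempty Y] (h : ∀ (J : Set (Option ι)), P J →
      ∀ (y : Y) (w : ι → Y), ∃ w', mk' y w' ∈ D ∧ ∀ b, some b ∈ J → w' b = w b)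
    (J : Set (Option ι)) (hJ : P J) (x : ∀ j : J, Fam Y ι j) : ∃ d ∈ D, ∀ j : J, d j = x j := by
  classical
  let x' : Option ι → Y := fun i => if c : i ∈ J then x ⟨i, c⟩ else Classical.arbitrary Y
  obtain ⟨w, h1, h2⟩ := h J hJ (x' none) fun b => x' (some b)
  refine ⟨_, h1, ?_⟩
  rintro ⟨_ | b, hj⟩
  · exact dif_pos hj
  · exact (h2 b hj).trans (dif_pos hj)

end

theorem cr_of_zd {X : Type} [TopologicalSpace X]
    (h : ∀ (d : X) (S : Set X), IsOpen S → d ∈ S → ∃ C, IsClopen C ∧ d ∈ C ∧ C ⊆ S) :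
    CompletelyRegularSpace X :=
  CompletelyRegularSpace.of_isTopologicalBasis_clopens
    (TopologicalSpace.isTopologicalBasis_of_isOpen_of_nhds (fun _ h => h.isOpen) fun a u h1 h2 =>
      let ⟨C, c1, c2, c3⟩ := h a u h2 h1; ⟨C, c1, c2, c3⟩)

theorem para_of {X : Type} [TopologicalSpace X]
    (h : ∀ (d : X) (S : Set X), IsOpen S → d ∈ S → ∃ C, IsClopen C ∧ d ∈ C ∧ C ⊆ S)
    (r : ℕ → X → X) (r1 : ∀ n, IsLocallyConstant (r n)) (r2 : ∀ x, ∃ n, r n x = x) :
    ParacompactSpace X := by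
  classical
  refine ⟨fun α s s1 s2 => ?_⟩
  choose i hi using fun q => mem_iUnion.1 (s2 ▸ mem_univ q : q ∈ ⋃ a, s a)
  choose C c1 c2 c3 using fun q => h q _ (s1 (i q)) (hi q)
  have ex : ∀ x, ∃ n, x ∈ C (r n x) := fun x => (r2 x).imp fun n hn => by rw [hn]; exact c2 x
  have ev : ∀ n x, ∀ᶠ y in 𝓝 x, r n y = r n x ∧ (y ∈ C (r n y) ↔ x ∈ C (r n x)) := by
    intro n x
    have a := (r1 n).eventually_eq x
    by_cases c : x ∈ C (r n x)
    · filter_upwards [a, (c1 _).isOpen.mem_nhds c] with y h1 h2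
      exact ⟨h1, by rw [h1]; exact iff_of_true h2 c⟩
    · filter_upwards [a, (c1 _).compl.isOpen.mem_nhds c] with y h1 h2
      exact ⟨h1, by rw [h1]; exact iff_of_false h2 c⟩
  let j : X → α := fun x => i (r (Nat.find (ex x)) x)
  have hj : IsLocallyConstant j := (IsLocallyConstant.iff_eventually_eq _).2 fun x => by
    filter_upwards [(Filter.eventually_all_finite (finite_Iic (Nat.find (ex x)))).2
      fun n _ => ev n x] with y hy
    have : Nat.find (ex y) = Nat.find (ex x) := (Nat.find_eq_iff _).2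
      ⟨(hy _ (mem_Iic.2 le_rfl)).2.2 (Nat.find_spec (ex x)), fun n hn c =>
        Nat.find_min (ex x) hn ((hy n hn.le).2.1 c)⟩
    simp only [j, this, (hy (Nat.find (ex x)) (mem_Iic.2 le_rfl)).1]
  refine ⟨α, fun a => j ⁻¹' {a}, fun a => hj _, eq_univ_of_forall fun x => mem_iUnion.2 ⟨_, rfl⟩,
    fun x => ⟨j ⁻¹' {j x}, (hj _).mem_nhds rfl, (finite_singleton (j x)).subset ?_⟩,
    fun a => ⟨a, ?_⟩⟩
  · rintro a ⟨y, h1, h2⟩; exact h1.symm.trans h2
  · rintro x rfl; exact c3 _ (Nat.find_spec (ex x))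

/-- index set of a level -/
abbrev K := Finset ℝ × Set ℝ

def Sm (T : Set K) : Prop := #T ≤ 𝔠

theorem Sm.mono {T T' : Set K} (h : Sm T) (h' : T' ⊆ T) : Sm T' := (mk_le_mk_of_subset h').trans h

theorem Sm.union {T T' : Set K} (h : Sm T) (h' : Sm T') : Sm (T ∪ T') :=
  (mk_union_le _ _).trans (add_le_of_le aleph0_le_continuum h h')

theorem Sm.fin {T : Set K} (h : T.Finite) : Sm T := h.countable.le_aleph0.trans aleph0_le_continuum

theorem Sm.iUnion {T : Finset ℝ → Set K} (h : ∀ s, Sm (T s)) : Sm (⋃ s, T s) := by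
  refine (mk_iUnion_le _).trans ?_
  rw [mk_finset_of_infinite, mk_real]
  exact (mul_le_mul_right (ciSup_le' h) _).trans continuum_mul_self.le

theorem notSm (s : Finset ℝ) : ¬ Sm {x | x.1 = s} := fun h => by
  have : #(Set ℝ) ≤ #{x : K | x.1 = s} :=
    mk_le_of_injective (f := fun l => ⟨(s, l), rfl⟩) fun a b e =>
      congrArg (fun x : {x : K | x.1 = s} => x.1.2) e
  rw [mk_set, mk_real] at this
  exact absurd (this.trans h) (not_le.2 (cantor _))

theorem fiber {T : Set K} (h : ¬ Sm T) (σ : K → Finset ℝ) : ∃ s, ¬ Sm {x ∈ T | σ x = s} := by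
  by_contra c
  push Not at c
  exact h ((Sm.iUnion c).mono fun x hx => mem_iUnion.2 ⟨_, hx, rfl⟩)

theorem meet {T T' : Set K} (h : ¬ Sm T) (h' : Sm T') : ∃ x ∈ T, x ∉ T' := by
  by_contra c
  push Not at c
  exact h (h'.mono c)

theorem exNot {A : Set (Option ℝ)} (h : A.Countable) : ∃ b : ℝ, some b ∉ A := by
  by_contra c
  push Not at c
  exact not_countable_univ ((h.preimage (Option.some_injective ℝ)).mono fun b _ => c b)

end Pool.Agent.H.MP_9641f2_gt
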