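import Pool.Agent.H.MP_9641f2_gt.B

set_option autoImplicit false

namespace Pool.Agent.H.MP_9641f2_gt

open Set Topology
open Cardinal hiding univ

inductive Y : Type
  | top : Y
  | pt : ℕ → K → Y
  | iso : ℕ → K → K → Y

namespace Y

def Up (n : ℕ) : Y → Prop
  | top => True
  | pt m _ => n < m
  | iso m _ _ => n ≤ m

def Nb (U : Set Y) : Y → Prop
  | top => ∃ n, ∀ y, Up n y → y ∈ U
  | pt n x => (∃ s : Finset ℝ, ∀ x' : K, s ⊆ x'.1 → iso n x x' ∈ U) ∧
      Sm {x' | 0 < n ∧ iso (n - 1) x' x ∉ U}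
  | iso _ _ _ => True

theorem Up.mono {n m : ℕ} (h : n ≤ m) : ∀ y, Up m y → Up n y
  | top, _ => trivial
  | pt _ _, c => lt_of_le_of_lt h c
  | iso _ _ _, c => h.trans c

theorem Nb.mono {U V : Set Y} (h : U ⊆ V) : ∀ y, Nb U y → Nb V y
  | top, ⟨n, c⟩ => ⟨n, fun y hy => h (c y hy)⟩
  | pt _ _, ⟨⟨s, c⟩, c'⟩ => ⟨⟨s, fun x hx => h (c x hx)⟩, c'.mono fun _ hx => ⟨hx.1, fun e => hx.2 (h e)⟩⟩
  | iso _ _ _, _ => trivial

instance : TopologicalSpace Y where
  IsOpen U := ∀ y ∈ U, Nb U y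
  isOpen_univ := by
    rintro (_ | _ | _) -
    exacts [⟨0, fun _ _ => trivial⟩, ⟨⟨∅, fun _ _ => trivial⟩, Sm.fin (by simp)⟩, trivial]
  isOpen_inter := by
    classical
    rintro U V hU hV (_ | _ | _) ⟨h1, h2⟩
    · obtain ⟨n, a⟩ := hU _ h1
      obtain ⟨m, b⟩ := hV _ h2
      exact ⟨max n m, fun y hy => ⟨a y (Up.mono (le_max_left _ _) y hy),
        b y (Up.mono (le_max_right _ _) y hy)⟩⟩
    · obtain ⟨⟨s, a⟩, a'⟩ := hU _ h1
      obtain ⟨⟨s', b⟩, b'⟩ := hV _ h2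
      exact ⟨⟨s ∪ s', fun x hx => ⟨a x (Finset.union_subset_left hx),
        b x (Finset.union_subset_right hx)⟩⟩, (a'.union b').mono fun x hx =>
          (not_and_or.1 hx.2).imp (fun c => ⟨hx.1, c⟩) fun c => ⟨hx.1, c⟩⟩
    · trivial
  isOpen_sUnion := fun s hs y ⟨U, h1, h2⟩ => Nb.mono (subset_sUnion_of_mem h1) y (hs U h1 y h2)

theorem op {U : Set Y} : IsOpen U ↔ ∀ y ∈ U, Nb U y := Iff.rfl

theorem exCone (x : K) : ∃ s : Finset ℝ, ¬ s ⊆ x.1 :=
  let ⟨b, hb⟩ := x.1.exists_notMem; ⟨{b}, by simpa using hb⟩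

instance : T1Space Y := ⟨fun y => isOpen_compl_iff.1 (op.2 (by
  rintro (_ | ⟨n, x⟩ | _) h
  · rcases y with _ | ⟨m, _⟩ | ⟨m, _⟩
    · exact absurd rfl h
    · exact ⟨m, by rintro _ c rfl; exact lt_irrefl _ c⟩
    · exact ⟨m + 1, by rintro _ c rfl; exact Nat.not_succ_le_self _ c⟩
  · rcases y with _ | _ | ⟨m, a, b⟩
    · exact ⟨⟨∅, by simp⟩, Sm.fin (by simp)⟩
    · exact ⟨⟨∅, by simp⟩, Sm.fin (by simp)⟩
    · obtain ⟨s, hs⟩ := exCone b
      refine ⟨⟨s, fun x' c e => ?_⟩, Sm.fin ((finite_singleton a).subset fun x' c => ?_)⟩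
      · cases e; exact hs c
      · have := not_not.1 c.2
        cases this; rfl
  · trivial))⟩

theorem notCR : ¬ CompletelyRegularSpace Y := by
  intro h
  obtain ⟨f, f1, f2, f3⟩ := h.completely_regular top (range (pt 0))
    (isOpen_compl_iff.1 (op.2 (by
      rintro (_ | ⟨n, x⟩ | _) h
      · exact ⟨0, by rintro _ c ⟨_, rfl⟩; exact lt_irrefl _ c⟩
      · exact ⟨⟨∅, by simp⟩, Sm.fin (by simp)⟩
      · trivial))) (by simp)
  let g : Y → ℝ := fun y => f y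
  have hg : Continuous g := continuous_subtype_val.comp f1
  let r : ℕ → ℝ := fun n => 1 / 2 + 1 / ((n : ℝ) + 3)
  have key : ∀ n, ¬ Sm {x | r n < g (pt n x)} := by
    intro n
    induction n with
    | zero =>
      refine fun c => notSm ∅ (c.mono fun x _ => ?_)
      show r 0 < (f (pt 0 x) : ℝ)
      rw [f3 ⟨x, rfl⟩]; norm_num [r]
    | succ n ih =>
      choose! σ hσ using fun x (hx : r n < g (pt n x)) =>
        (op.1 (isOpen_lt (continuous_const (y := r n)) hg) _ hx).1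
      obtain ⟨s, hs⟩ := fiber ih σ
      refine fun c => notSm s (c.mono fun x' hx' => ?_)
      by_contra c'
      have : g (pt (n + 1) x') < r n := by
        refine (not_lt.1 c').trans_lt ?_
        simp only [r]; push_cast
        gcongr; linarith
      obtain ⟨x, h1, h2⟩ := meet hs (op.1 (isOpen_lt hg (continuous_const (y := r n))) _ this).2
      have h3 : r n < g (iso n x x') := hσ x h1.1 x' (by rw [h1.2, hx'])
      exact h2 ⟨n.succ_pos, fun c => lt_asymm h3 c⟩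
  obtain ⟨n, hn⟩ := op.1 (isOpen_lt hg (continuous_const (y := 1 / 2))) top
    (by show (f top : ℝ) < 1 / 2; rw [f2]; norm_num)
  obtain ⟨x, h1, -⟩ := meet (key (n + 1)) (Sm.fin finite_empty)
  have h2 : g _ < 1 / 2 := hn (pt (n + 1) x) n.lt_succ_self
  have h3 : (0 : ℝ) < 1 / (((n + 1 : ℕ) : ℝ) + 3) := by positivity
  simp only [r, mem_setOf_eq] at h1
  linarith

def DC : Set (∀ i, Fam Y ℝ i) := {z | ∃ b, co z b = pr z}

theorem fillC : FillsCountable DC := fun J _ hJ => by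
  classical
  haveI : Nonempty Y := ⟨top⟩
  refine fill Set.Countable (fun J hJ y w => ?_) J hJ
  obtain ⟨b, hb⟩ := exNot hJ
  exact ⟨Function.update w b y, ⟨b, Function.update_self _ _ _⟩, fun c hc =>
    Function.update_of_ne (fun e : c = b => hb (e ▸ hc)) _ _⟩

/-- the clopen neighbourhoods of the fibre over `top` -/
def Cut (n : ℕ) (w : ℝ → Y) : Y → Prop
  | top => True
  | pt m _ => n < m
  | iso m x x' => n < m ∨ (m = n ∧ ∀ b ∈ x'.1, w b ≠ pt n x)

theorem opUp (n : ℕ) : IsOpen {y | Up n y} := op.2 (by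
  rintro (_ | ⟨m, x⟩ | _) h
  · exact ⟨n, fun _ h => h⟩
  · exact ⟨⟨∅, fun _ _ => (le_of_lt h : n ≤ m)⟩, Sm.fin (finite_empty.subset fun _ c =>
      c.2 (Nat.le_sub_one_of_lt h))⟩
  · trivial)

theorem opIso (n : ℕ) (x x' : K) : IsOpen {iso n x x'} := op.2 (by rintro _ rfl; trivial)

def Bs (n : ℕ) (x : K) (s : Finset ℝ) (T : Set K) : Set Y :=
  {y | y = pt n x ∨ (∃ x' : K, s ⊆ x'.1 ∧ y = iso n x x') ∨
    ∃ x', 0 < n ∧ x' ∉ T ∧ y = iso (n - 1) x' x}

theorem clBs (n : ℕ) (x : K) (s : Finset ℝ) {T : Set K} (hT : Sm T) : IsClopen (Bs n x s T) := by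
  refine ⟨isOpen_compl_iff.1 (op.2 ?_), op.2 ?_⟩
  · rintro (_ | ⟨m, z⟩ | _) h
    · refine ⟨n + 1, ?_⟩
      rintro _ c (rfl | ⟨_, -, rfl⟩ | ⟨_, -, -, rfl⟩) <;> simp only [Up] at c <;> omega
    · obtain ⟨s', hs⟩ := exCone x
      refine ⟨⟨s', ?_⟩, Sm.fin ((finite_singleton x).subset fun x' c => ?_)⟩
      · rintro x' c (e | ⟨_, -, e⟩ | ⟨_, -, -, e⟩)
        · cases e
        · cases e; exact h (Or.inl rfl)
        · cases e; exact hs c
      · rcases not_not.1 c.2 with e | ⟨_, -, e⟩ | ⟨_, hn, -, e⟩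
        · cases e
        · exact (iso.inj e).2.1
        · obtain ⟨e1, -, rfl⟩ := iso.inj e
          exact absurd (Or.inl (by rw [show m = n by have := c.1; omega])) h
    · trivial
  · rintro _ (rfl | ⟨_, -, rfl⟩ | ⟨_, -, -, rfl⟩)
    · exact ⟨⟨s, fun x' c => Or.inr (Or.inl ⟨x', c, rfl⟩)⟩, hT.mono fun x' c =>
        by_contra fun c' => c.2 (Or.inr (Or.inr ⟨x', c.1, c', rfl⟩))⟩
    all_goals trivial

theorem clIso (n : ℕ) (x x' : K) : IsClopen {iso n x x'} := ⟨isClosed_singleton, opIso _ _ _⟩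

theorem clCut (n : ℕ) : IsClopen {e : DC | Cut n (co e.1) (pr e.1)} := by
  refine ⟨isOpen_compl_iff.1 (open_iff.2 fun d hd => ?_), open_iff.2 fun d hd => ?_⟩
  · simp only [mem_compl_iff, mem_setOf_eq] at hd ⊢
    obtain ⟨b, hb⟩ := d.2
    generalize pr d.1 = y at hd hb
    rcases y with _ | ⟨m, x⟩ | ⟨m, x, x'⟩
    · exact absurd trivial hd
    · refine ⟨_, (clBs m x {b} (Sm.fin finite_empty)).isOpen, Or.inl rfl, {b}, fun e h1 h2 => ?_⟩
      simp only [Cut] at hd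
      rcases h1 with h | ⟨x', c, h⟩ | ⟨x', c, -, h⟩ <;> rw [h] <;> simp only [Cut]
      · exact hd
      · rintro (c' | ⟨rfl, c'⟩)
        · exact hd c'
        · exact c' b (c (Finset.mem_singleton_self b)) ((h2 b (Finset.mem_singleton_self b)).trans hb)
      · rintro (c' | ⟨c', -⟩) <;> omega
    · refine ⟨_, opIso m x x', rfl, x'.1, fun e h1 h2 => ?_⟩
      rw [h1]
      exact fun c => hd (c.imp id fun c => ⟨c.1, fun b hb => h2 b hb ▸ c.2 b hb⟩)
  · simp only [mem_setOf_eq] at hd ⊢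
    generalize pr d.1 = y at hd
    rcases y with _ | ⟨m, x⟩ | ⟨m, x, x'⟩
    · refine ⟨_, opUp (n + 1), trivial, ∅, fun e h1 _ => ?_⟩
      simp only [mem_setOf_eq] at h1
      generalize pr e.1 = y at h1
      rcases y with _ | _ | _
      exacts [trivial, Nat.lt_of_succ_lt h1, Or.inl h1]
    · have fin : {x' | ∃ b ∈ x.1, co d.1 b = pt n x'}.Finite := by
        refine Finite.of_finite_image (f := pt n) ((x.1.finite_toSet.image (co d.1)).subset ?_)
          fun _ _ _ _ e => (pt.inj e).2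
        rintro _ ⟨x', h, rfl⟩; exact h
      refine ⟨_, (clBs m x ∅ (Sm.fin fin)).isOpen, Or.inl rfl, x.1, fun e h1 h2 => ?_⟩
      simp only [Cut] at hd
      rcases h1 with h | ⟨x', c, h⟩ | ⟨x', c, c', h⟩ <;> rw [h] <;> simp only [Cut]
      · exact hd
      · exact Or.inl hd
      · by_cases c'' : n < m - 1
        · exact Or.inl c''
        · exact Or.inr ⟨by omega, fun b hb e' => c' ⟨b, hb, (h2 b hb).symm.trans e'⟩⟩
    · refine ⟨_, opIso m x x', rfl, x'.1, fun e h1 h2 => ?_⟩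
      rw [h1]
      exact hd.imp id fun c => ⟨c.1, fun b hb => (h2 b hb).symm ▸ c.2 b hb⟩

theorem crDC : CompletelyRegularSpace DC := by
  refine cr_of_zd (zd fun d V hV hd => ?_)
  have pre : ∀ W : Set Y, IsClopen W → pr d.1 ∈ W → W ⊆ V →
      ∃ C : Set DC, IsClopen C ∧ d ∈ C ∧ ∀ e ∈ C, pr e.1 ∈ V := fun W h1 h2 h3 =>
    ⟨_, h1.preimage (cpr.comp continuous_subtype_val), h2, fun e he => h3 he⟩
  have nb := op.1 hV _ hd
  rcases hy : pr d.1 with _ | ⟨m, x⟩ | ⟨m, x, x'⟩ <;> rw [hy] at nb hd pre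
  · obtain ⟨n, hn⟩ := nb
    refine ⟨_, clCut n, by simp only [mem_setOf_eq, hy, Cut], fun e he => hn _ ?_⟩
    simp only [mem_setOf_eq] at he
    generalize pr e.1 = y at he
    rcases y with _ | _ | _
    exacts [trivial, he, he.elim le_of_lt fun c => c.1.ge]
  · obtain ⟨⟨s, h1⟩, h2⟩ := nb
    refine pre _ (clBs m x s h2) (Or.inl rfl) ?_
    rintro _ (rfl | ⟨x', c, rfl⟩ | ⟨x', c, c', rfl⟩)
    exacts [hd, h1 x' c, by_contra fun e => c' ⟨c, e⟩]
  · exact pre _ (clIso m x x') rfl (singleton_subset_iff.2 hd)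

end Y

end Pool.Agent.H.MP_9641f2_gt
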