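import Pool.Agent.H.MP_9641f2_gt.B

set_option autoImplicit false

namespace Pool.Agent.H.MP_9641f2_gt

open Set Topology
open Cardinal hiding univ

inductive Z : Type
  | lo : K → Z
  | hi : K → Z
  | iso : K → K → Z

namespace Z

def Nb (U : Set Z) : Z → Prop
  | lo x => ∃ s : Finset ℝ, ∀ x' : K, s ⊆ x'.1 → iso x x' ∈ U
  | hi x => Sm {x' | iso x' x ∉ U}
  | iso _ _ => True

theorem Nb.mono {U V : Set Z} (h : U ⊆ V) : ∀ y, Nb U y → Nb V y
  | lo _, ⟨s, c⟩ => ⟨s, fun x hx => h (c x hx)⟩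
  | hi _, c => Sm.mono c fun _ hx e => hx (h e)
  | iso _ _, _ => trivial

instance : TopologicalSpace Z where
  IsOpen U := ∀ y ∈ U, Nb U y
  isOpen_univ := by
    rintro (_ | _ | _) -
    exacts [⟨∅, fun _ _ => trivial⟩, Sm.fin (by simp), trivial]
  isOpen_inter := by
    classical
    rintro U V hU hV (_ | _ | _) ⟨h1, h2⟩
    · obtain ⟨s, a⟩ := hU _ h1
      obtain ⟨s', b⟩ := hV _ h2
      exact ⟨s ∪ s', fun x hx => ⟨a x (Finset.union_subset_left hx),
        b x (Finset.union_subset_right hx)⟩⟩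
    · exact (Sm.union (hU _ h1) (hV _ h2)).mono fun x hx => not_and_or.1 hx
    · trivial
  isOpen_sUnion := fun s hs y ⟨U, h1, h2⟩ => Nb.mono (subset_sUnion_of_mem h1) y (hs U h1 y h2)

theorem op {U : Set Z} : IsOpen U ↔ ∀ y ∈ U, Nb U y := Iff.rfl

theorem exCone (x : K) : ∃ s : Finset ℝ, ¬ s ⊆ x.1 :=
  let ⟨b, hb⟩ := x.1.exists_notMem; ⟨{b}, by simpa using hb⟩

instance : T1Space Z := ⟨fun y => isOpen_compl_iff.1 (op.2 (by
  rintro (x | x | _) h
  · rcases y with _ | _ | ⟨a, b⟩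
    · exact ⟨∅, by simp⟩
    · exact ⟨∅, by simp⟩
    · obtain ⟨s, hs⟩ := exCone b
      exact ⟨s, fun x' c e => by cases e; exact hs c⟩
  · rcases y with _ | _ | ⟨a, b⟩
    · exact Sm.fin (by simp)
    · exact Sm.fin (by simp)
    · exact Sm.fin ((finite_singleton a).subset fun x' c => (iso.inj (not_not.1 c)).1)
  · trivial))⟩

theorem notN : ¬ NormalSpace Z := by
  intro h
  obtain ⟨U, V, u, v, h1, h2, h3⟩ := h.normal (range lo) (range hi)
    (isOpen_compl_iff.1 (op.2 (by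
      rintro (x | x | _) h
      exacts [absurd ⟨x, rfl⟩ h, Sm.fin (by simp), trivial])))
    (isOpen_compl_iff.1 (op.2 (by
      rintro (x | x | _) h
      exacts [⟨∅, by simp⟩, absurd ⟨x, rfl⟩ h, trivial])))
    (disjoint_left.2 (by rintro _ ⟨x, rfl⟩ ⟨y, e⟩; cases e))
  choose σ hσ using fun x => op.1 u _ (h1 ⟨x, rfl⟩)
  obtain ⟨s, hs⟩ := fiber (T := univ) (fun c => notSm ∅ (c.mono (subset_univ _))) σ
  obtain ⟨x, a, b⟩ := meet hs (op.1 v _ (h2 ⟨(s, ∅), rfl⟩))
  exact disjoint_left.1 h3 (hσ x (s, ∅) a.2.le) (not_not.1 b)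

def Lo (x : K) (s : Finset ℝ) : Set Z := {y | y = lo x ∨ ∃ x' : K, s ⊆ x'.1 ∧ y = iso x x'}
def Hi (x : K) (T : Set K) : Set Z := {y | y = hi x ∨ ∃ x', x' ∉ T ∧ y = iso x' x}

theorem clLo (x : K) (s : Finset ℝ) : IsClopen (Lo x s) := by
  refine ⟨isOpen_compl_iff.1 (op.2 ?_), op.2 ?_⟩
  · rintro (z | z | _) h
    · refine ⟨∅, ?_⟩
      rintro x' - (e | ⟨_, -, e⟩) <;> cases e
      exact h (Or.inl rfl)
    · refine Sm.fin ((finite_singleton x).subset fun x' c => ?_)
      rcases not_not.1 c with e | ⟨_, -, e⟩ <;> cases e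
      rfl
    · trivial
  · rintro _ (rfl | ⟨_, -, rfl⟩)
    exacts [⟨s, fun x' c => Or.inr ⟨x', c, rfl⟩⟩, trivial]

theorem clHi (x : K) {T : Set K} (hT : Sm T) : IsClopen (Hi x T) := by
  refine ⟨isOpen_compl_iff.1 (op.2 ?_), op.2 ?_⟩
  · rintro (z | z | _) h
    · obtain ⟨s, hs⟩ := exCone x
      refine ⟨s, ?_⟩
      rintro x' c (e | ⟨_, -, e⟩) <;> cases e
      exact hs c
    · refine Sm.fin (finite_empty.subset fun x' c => ?_)
      rcases not_not.1 c with e | ⟨_, -, e⟩ <;> cases e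
      exact h (Or.inl rfl)
    · trivial
  · rintro _ (rfl | ⟨_, -, rfl⟩)
    exacts [hT.mono fun x' c => by_contra fun c' => c (Or.inr ⟨x', c', rfl⟩), trivial]

theorem opIso (x x' : K) : IsOpen {iso x x'} := op.2 (by rintro _ rfl; trivial)

theorem zdZ (y : Z) (V : Set Z) (hV : IsOpen V) (hy : y ∈ V) : ∃ C, IsClopen C ∧ y ∈ C ∧ C ⊆ V := by
  have nb := op.1 hV _ hy
  rcases y with x | x | ⟨x, x'⟩
  · obtain ⟨s, h⟩ := nb
    exact ⟨_, clLo x s, Or.inl rfl, by rintro _ (rfl | ⟨x', c, rfl⟩); exacts [hy, h x' c]⟩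
  · exact ⟨_, clHi x nb, Or.inl rfl, by rintro _ (rfl | ⟨x', c, rfl⟩); exacts [hy, not_not.1 c]⟩
  · exact ⟨_, ⟨isClosed_singleton, opIso _ _⟩, rfl, singleton_subset_iff.2 hy⟩

instance : T2Space Z := by
  haveI := cr_of_zd zdZ
  infer_instance

theorem notP : ¬ ParacompactSpace Z := fun _ => notN inferInstance

def DA : Set (∀ i, Fam Z ℕ i) := {z | ∃ n, ∀ k, n ≤ k → co z k = pr z}

theorem fillA : FillsFinite DA := fun J _ hJ => by
  classical
  haveI : Nonempty Z := ⟨lo (∅, ∅)⟩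
  refine fill Set.Finite (fun J hJ y w => ?_) J hJ
  obtain ⟨n, hn⟩ := (hJ.preimage (Option.some_injective ℕ).injOn).bddAbove
  exact ⟨fun k => if k ≤ n then w k else y, ⟨n + 1, fun k hk => if_neg (by omega)⟩,
    fun c hc => if_pos (hn hc)⟩

theorem paraA : ParacompactSpace DA := by
  refine para_of (zd fun d V hV hd => ?_) (fun n z => ⟨mk' (co z.1 n)
    fun k => if k ≤ n then co z.1 k else co z.1 n, n + 1, fun k hk => if_neg (by omega)⟩)
    (fun n => (IsLocallyConstant.iff_exists_open _).2 fun d => ⟨_,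
      (clAg (Finset.range (n + 1)) (co d.1)).isOpen, fun _ _ => rfl, fun e he => Subtype.ext ?_⟩)
    fun d => ?_
  · obtain ⟨C, c1, c2, c3⟩ := zdZ _ V hV hd
    exact ⟨_, c1.preimage (cpr.comp continuous_subtype_val), c2, fun e he => c3 he⟩
  · have := he n (by simp)
    show mk' _ _ = mk' _ _
    rw [this]
    congr 1
    funext k
    split_ifs with c
    exacts [he k (by simpa [Nat.lt_succ_iff] using c), rfl]
  · obtain ⟨n, hn⟩ := d.2
    refine ⟨n, Subtype.ext (funext ?_)⟩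
    rintro (_ | k)
    · exact hn n le_rfl
    · show (if k ≤ n then co d.1 k else co d.1 n) = co d.1 k
      split_ifs with c
      exacts [rfl, (hn n le_rfl).trans (hn k (by omega)).symm]

end Z

theorem tree {A ι : Type} (b : A) (bad : Finset ι → (ι → A) → Prop)
    (down : ∀ J J' z z', bad J z → J' ⊆ J → Ag J' z' z → bad J' z')
    (ext : ∀ J z, bad J z → ∃ S : Set ι, S.Countable ∧ ∀ J' z', Ag J z' z →
      (∀ c ∈ J', c ∉ J → c ∉ S ∧ z' c = b) → bad J' z')
    (no : ∀ z, {c | z c ≠ b}.Countable → ∃ J, ¬ bad J z) :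
    ∃ τ : (ι → A) → Finset ι, ∀ z, ¬ bad (τ z) z ∧ ∀ z', Ag (τ z) z' z → τ z' = τ z := by
  classical
  have : ∀ J z, ∃ a : ℕ → Finset ι, bad J z → ∀ J' z', Ag J z' z →
      (∀ c ∈ J', c ∉ J → (∀ n, c ∉ a n) ∧ z' c = b) → bad J' z' := by
    intro J z
    by_cases h : bad J z
    · obtain ⟨S, s1, s2⟩ := ext J z h
      obtain ⟨f, hf⟩ := Set.countable_iff_exists_injOn.1 s1
      refine ⟨fun n => if c : ∃ x ∈ S, f x = n then {c.choose} else ∅, fun _ J' z' h1 h2 =>
        s2 J' z' h1 fun c h3 h4 => ⟨fun h5 => (h2 c h3 h4).1 (f c) ?_, (h2 c h3 h4).2⟩⟩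
      have e : ∃ x ∈ S, f x = f c := ⟨c, h5, rfl⟩
      simp only [dif_pos e, Finset.mem_singleton]
      exact (hf e.choose_spec.1 h5 e.choose_spec.2).symm
    · exact ⟨fun _ => ∅, fun c => absurd c h⟩
  choose a ha using this
  let res : Finset ι → (ι → A) → ι → A := fun J z c => if c ∈ J then z c else b
  let st : (ι → A) → ℕ → Finset ι × (ℕ → Finset ι) := fun z n => Nat.rec (∅, fun _ => ∅)
    (fun n p => (p.1 ∪ (Finset.range n).biUnion p.2, fun m => p.2 m ∪ a p.1 (res p.1 z) m)) n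
  have s1 : ∀ z n, st z (n + 1) = ((st z n).1 ∪ (Finset.range n).biUnion (st z n).2,
      fun m => (st z n).2 m ∪ a (st z n).1 (res (st z n).1 z) m) := fun _ _ => rfl
  have m1 : ∀ z, Monotone fun n => (st z n).1 := fun z =>
    monotone_nat_of_le_succ fun n => Finset.subset_union_left
  have m2 : ∀ z m, Monotone fun n => (st z n).2 m := fun z m =>
    monotone_nat_of_le_succ fun n => Finset.subset_union_left
  have coh : ∀ z z' n, Ag (st z n).1 z' z → st z' n = st z n := by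
    intro z z' n
    induction n with
    | zero => exact fun _ => rfl
    | succ n ih =>
      intro h
      have h' : Ag (st z n).1 z' z := fun c hc => h c (m1 z n.le_succ hc)
      have : res (st z n).1 z' = res (st z n).1 z := funext fun c => by
        simp only [res]; split_ifs with e; exacts [h' c e, rfl]
      rw [s1, s1, ih h', this]
  have ex : ∀ z, ∃ n, ¬ bad (st z n).1 z := by
    intro z
    by_contra h
    push Not at h
    let w : ι → A := fun c => if ∃ n, c ∈ (st z n).1 then z c else b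
    obtain ⟨J, hJ⟩ := no w ((countable_iUnion fun n => (st z n).1.countable_toSet).mono
      fun c hc => mem_iUnion.2 (by_contra fun e => hc (if_neg e)))
    choose! f hf using fun c (hc : ∃ n, c ∈ (st z n).1) => hc
    obtain ⟨n, hn⟩ := (J.image f).bddAbove
    refine hJ (ha _ (res (st z n).1 z) (down _ _ _ _ (h n) subset_rfl fun c hc => if_pos hc) J w
      (fun c hc => (if_pos ⟨n, hc⟩).trans (if_pos hc).symm) fun c h1 h2 => ?_)
    have e : ¬ ∃ n, c ∈ (st z n).1 := fun e => h2 (m1 z (hn (by simpa using ⟨c, h1, rfl⟩)) (hf c e))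
    refine ⟨fun m hm => e ⟨max (n + 1) (m + 1) + 1, ?_⟩, if_neg e⟩
    rw [s1]
    exact Finset.mem_union_right _ (Finset.mem_biUnion.2 ⟨m, Finset.mem_range.2 (by omega),
      m2 z m (le_max_left _ _) (Finset.mem_union_right _ hm)⟩)
  refine ⟨fun z => (st z (Nat.find (ex z))).1, fun z => ⟨Nat.find_spec (ex z), fun z' h => ?_⟩⟩
  have c : ∀ n ≤ Nat.find (ex z), st z' n = st z n ∧ Ag (st z n).1 z' z := fun n hn =>
    have : Ag (st z n).1 z' z := fun c hc => h c (m1 z hn hc)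
    ⟨coh z z' n this, this⟩
  have : Nat.find (ex z') = Nat.find (ex z) := (Nat.find_eq_iff _).2
    ⟨fun e => Nat.find_spec (ex z) (down _ _ _ _ e (by rw [(c _ le_rfl).1])
      fun x hx => ((c _ le_rfl).2 x hx).symm), fun n hn e => e (down _ _ _ _
        (not_not.1 (Nat.find_min (ex z) hn)) (by rw [(c _ hn.le).1])
        (by rw [(c _ hn.le).1]; exact (c _ hn.le).2))⟩
  simp only [this, (c _ le_rfl).1]

end Pool.Agent.H.MP_9641f2_gt
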