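import Mathlib

set_option autoImplicit false

namespace Pool.Agent.H.MP_9641f2_gt

universe u v

/-- `π_J(D) = X_J` for every nonempty countable `J` -/
def FillsCountable {I : Type u} {X : I → Type v} (D : Set (∀ i, X i)) : Prop :=
  ∀ J : Set I, J.Nonempty → J.Countable → ∀ x : ∀ j : J, X j, ∃ d ∈ D, ∀ j : J, d j = x j

/-- `π_J(D) = X_J` for every nonempty finite `J` -/
def FillsFinite {I : Type u} {X : I → Type v} (D : Set (∀ i, X i)) : Prop :=
  ∀ J : Set I, J.Nonempty → J.Finite → ∀ x : ∀ j : J, X j, ∃ d ∈ D, ∀ j : J, d j = x j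

end Pool.Agent.H.MP_9641f2_gt
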