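import Pool.Agent.H.MP_9641f2_gt.C
import Pool.Agent.H.MP_9641f2_gt.D

set_option autoImplicit false

namespace Pool.Agent.H.MP_9641f2_gt

open Set Topology
open Cardinal hiding univ

namespace Z

def bs : Z → Z
  | lo x => lo x
  | _ => hi (∅, ∅)

def DB : Set (∀ i, Fam Z ℝ i) := {z | {c | co z c ≠ bs (pr z)}.Countable}

theorem fillB : FillsCountable DB := fun J _ hJ => by
  classical
  haveI : Nonempty Z := ⟨lo (∅, ∅)⟩
  refine fill Set.Countable (fun J hJ y w => ?_) J hJ
  exact ⟨fun c => if some c ∈ J then w c else bs y,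
    (hJ.preimage (Option.some_injective ℝ)).mono fun c hc => by_contra fun e => hc (if_neg e),
    fun c hc => if_pos hc⟩

def Hit (M : Set DB) (y : Z) (J : Finset ℝ) (z : ℝ → Z) : Prop :=
  ∃ m ∈ M, pr m.1 = y ∧ Ag J (co m.1) z

def Big (M : Set DB) (y : Z) (J : Finset ℝ) (z : ℝ → Z) : Prop :=
  Hit M y J z ∨ ∃ x', y = hi x' ∧ ¬ Sm {x | Hit M (iso x x') J z}

theorem Hit.down {M : Set DB} {y : Z} {J J' : Finset ℝ} {z z' : ℝ → Z} (h : Hit M y J z)
    (h1 : J' ⊆ J) (h2 : Ag J' z' z) : Hit M y J' z' :=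
  let ⟨m, a, b, c⟩ := h; ⟨m, a, b, fun i hi => (c i (h1 hi)).trans (h2 i hi).symm⟩

theorem Big.down {M : Set DB} {y : Z} {J J' : Finset ℝ} {z z' : ℝ → Z} (h : Big M y J z)
    (h1 : J' ⊆ J) (h2 : Ag J' z' z) : Big M y J' z' :=
  h.imp (fun h => h.down h1 h2) fun ⟨x', a, b⟩ =>
    ⟨x', a, fun c => b (c.mono fun _ hx => Hit.down hx h1 h2)⟩

theorem Big.ext {M : Set DB} {y : Z} {J : Finset ℝ} {z : ℝ → Z} (h : Big M y J z) :
    ∃ S : Set ℝ, S.Countable ∧ ∀ J' z', Ag J z' z →
      (∀ c ∈ J', c ∉ J → c ∉ S ∧ z' c = bs y) → Big M y J' z' := by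
  classical
  have ag : ∀ (m : DB) (J' : Finset ℝ) (z' : ℝ → Z), Ag J (co m.1) z → Ag J z' z →
      (∀ c ∈ J', c ∉ J → co m.1 c = z' c) → Ag J' (co m.1) z' := fun m J' z' a b c i hi =>
    (em (i ∈ J)).elim (fun e => (a i e).trans (b i e).symm) (c i hi)
  rcases h with ⟨m, a, rfl, b⟩ | ⟨x', rfl, h⟩
  · exact ⟨_, m.2, fun J' z' h1 h2 => Or.inl ⟨m, a, rfl, ag m J' z' b h1 fun c e e' =>
      (not_not.1 (h2 c e e').1).trans (h2 c e e').2.symm⟩⟩
  · let T : Finset ℝ → Set K := fun L => {x | ∃ m ∈ M, pr m.1 = iso x x' ∧ Ag J (co m.1) z ∧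
      ∀ c ∈ L, co m.1 c = hi (∅, ∅)}
    obtain ⟨x, ⟨m, a1, a2, a3⟩, a4⟩ := meet h (Sm.iUnion (T := fun L => {x | Sm (T L) ∧ x ∈ T L})
      fun L => (em (Sm (T L))).elim (fun c => c.mono fun _ h => h.2)
        fun c => Sm.fin (finite_empty.subset fun _ h => c h.1))
    refine ⟨_, m.2, fun J' z' h1 h2 => Or.inr ⟨x', rfl, fun c => a4 (mem_iUnion.2 ⟨J' \ J,
      c.mono ?_, m, a1, a2, a3, fun i hi => ?_⟩)⟩⟩
    · rintro x ⟨m, b1, b2, b3, b4⟩
      exact ⟨m, b1, b2, ag m J' z' b3 h1 fun i e e' =>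
        (b4 i (Finset.mem_sdiff.2 ⟨e, e'⟩)).trans (h2 i e e').2.symm⟩
    · have := not_not.1 (h2 i (Finset.mem_sdiff.1 hi).1 (Finset.mem_sdiff.1 hi).2).1
      rw [this, a2]; rfl

theorem notBig {M : Set DB} (hM : IsClosed M) {d : DB} (hd : d ∉ M) :
    ∃ J, ¬ Big M (pr d.1) J (co d.1) := by
  obtain ⟨V, v1, v2, J, hJ⟩ := open_iff.1 hM.isOpen_compl d hd
  refine ⟨J, ?_⟩
  rintro (⟨m, a, b, c⟩ | ⟨x', a, b⟩)
  · exact hJ m (b ▸ v2) c a
  · rw [a] at v2
    refine b (Sm.mono (op.1 v1 _ v2) ?_)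
    rintro x ⟨m, a, b, c⟩ e
    exact hJ m (b ▸ e) c a

theorem sep (M : Bool → Set DB) (hM : ∀ p, IsClosed (M p)) (hd : Disjoint (M false) (M true)) :
    ∃ g : DB → Bool, IsLocallyConstant g ∧ ∀ d, d ∉ M (g d) := by
  classical
  choose τ t1 t2 using fun y => tree (bs y) (fun J z => ∀ p, Big (M p) y J z)
    (fun J J' z z' h a b p => (h p).down a b)
    (fun J z h => by
      obtain ⟨S, s1, s2⟩ := (h false).ext
      obtain ⟨S', s3, s4⟩ := (h true).ext
      refine ⟨S ∪ S', s1.union s3, fun J' z' a b p => ?_⟩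
      cases p
      · exact s2 J' z' a fun c e e' => ⟨fun f => (b c e e').1 (Or.inl f), (b c e e').2⟩
      · exact s4 J' z' a fun c e e' => ⟨fun f => (b c e e').1 (Or.inr f), (b c e e').2⟩)
    (fun z hz => by
      let d : DB := ⟨mk' y z, hz⟩
      obtain ⟨p, hp⟩ : ∃ p, d ∉ M p := by
        by_contra h
        push Not at h
        exact disjoint_left.1 hd (h _) (h _)
      exact (notBig (hM p) hp).imp fun J h c => h (c p))
  let sd : Z → (ℝ → Z) → Bool := fun y z => decide (Big (M false) y (τ y z) z)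
  have sd1 : ∀ y z, ¬ Big (M (sd y z)) y (τ y z) z := by
    intro y z
    by_cases c : Big (M false) y (τ y z) z
    · rw [show sd y z = true from decide_eq_true c]
      exact fun e => t1 y z fun p => by cases p; exacts [c, e]
    · rw [show sd y z = false from decide_eq_false c]; exact c
  have sd2 : ∀ y z z', Ag (τ y z) z' z → sd y z' = sd y z := by
    intro y z z' h
    simp only [sd, t2 y z z' h]
    exact decide_eq_decide.2 ⟨fun c => c.down subset_rfl fun i hi => (h i hi).symm,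
      fun c => c.down subset_rfl h⟩
  let pf : K → K → (ℝ → Z) → Bool := fun x x' z =>
    if ∃ b ∈ x'.1, z b = lo x then sd (lo x) z else sd (hi x') z
  let JJ : K → K → (ℝ → Z) → Finset ℝ := fun x x' z => x'.1 ∪ τ (lo x) z ∪ τ (hi x') z
  let G : Z → (ℝ → Z) → Bool := fun y z => match y with
    | iso x x' => if Hit (M (pf x x' z)) y (JJ x x' z) z then sd y z else pf x x' z
    | _ => sd y z
  have base : ∀ d : DB, d ∉ M (sd (pr d.1) (co d.1)) := fun d c =>
    sd1 _ _ (Or.inl ⟨d, c, rfl, fun _ _ => rfl⟩)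
  refine ⟨fun d => G (pr d.1) (co d.1), (IsLocallyConstant.iff_isOpen_fiber_apply).2 fun d0 =>
    open_iff.2 fun d h0 => ?_, fun d => ?_⟩
  · suffices ∃ V : Set Z, IsOpen V ∧ pr d.1 ∈ V ∧ ∃ J : Finset ℝ, ∀ y ∈ V, ∀ z,
        Ag J z (co d.1) → G y z = G (pr d.1) (co d.1) by
      obtain ⟨V, v1, v2, J, hJ⟩ := this
      exact ⟨V, v1, v2, J, fun e a b => (hJ _ a _ b).trans h0⟩
    have nb := base d
    have hc := d.2
    rcases hy : pr d.1 with x | x' | ⟨x, x'⟩
    · obtain ⟨V, v1, v2, J, hJ⟩ := open_iff.1 (hM _).isOpen_compl d nb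
      rw [hy] at v2 hJ
      obtain ⟨s, hs⟩ := op.1 v1 _ v2
      obtain ⟨b, hb⟩ : ∃ b, co d.1 b = lo x := by
        by_contra h
        push Not at h
        exact not_countable_univ (Countable.mono (fun c _ => by rw [mem_setOf_eq, hy]; exact h c) hc)
      refine ⟨_, (clLo x (insert b (s ∪ J))).isOpen, Or.inl rfl,
        insert b (J ∪ τ (lo x) (co d.1)), fun y h1 z h2 => ?_⟩
      have e := sd2 (lo x) (co d.1) z fun i hi => h2 i (by simp [hi])
      rcases h1 with rfl | ⟨x', h1, rfl⟩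
      · exact e
      · have p : pf x x' z = sd (lo x) (co d.1) :=
          (if_pos ⟨b, h1 (by simp), (h2 b (by simp)).trans hb⟩).trans e
        refine (if_neg ?_).trans p
        rw [p]
        rintro ⟨m, a1, a2, a3⟩
        exact hJ m (a2 ▸ hs x' fun i hi => h1 (by simp [hi])) (fun i hi =>
          (a3 i (by simp [JJ, h1 (show i ∈ insert b (s ∪ J) by simp [hi])])).trans
            (h2 i (by simp [hi]))) a1
    · have fin : {x | ∃ b ∈ x'.1, co d.1 b = lo x}.Finite := by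
        refine Finite.of_finite_image (f := lo) ((x'.1.finite_toSet.image (co d.1)).subset ?_)
          fun _ _ _ _ e => lo.inj e
        rintro _ ⟨x, h, rfl⟩; exact h
      have sm : Sm {x | Hit (M (sd (hi x') (co d.1))) (iso x x') (τ (hi x') (co d.1)) (co d.1)} :=
        by_contra fun c => sd1 _ _ (Or.inr ⟨x', rfl, c⟩)
      refine ⟨_, (clHi x' ((Sm.fin fin).union sm)).isOpen, Or.inl rfl,
        x'.1 ∪ τ (hi x') (co d.1), fun y h1 z h2 => ?_⟩
      have a : Ag (τ (hi x') (co d.1)) z (co d.1) := fun i hi => h2 i (by simp [hi])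
      have e := sd2 _ _ _ a
      rcases h1 with rfl | ⟨x, h1, rfl⟩
      · exact e
      · have p : pf x x' z = sd (hi x') (co d.1) :=
          (if_neg fun ⟨b, c, c'⟩ => h1 (Or.inl ⟨b, c, (h2 b (by simp [c])).symm.trans c'⟩)).trans e
        refine (if_neg ?_).trans p
        rw [p]
        exact fun c => h1 (Or.inr (c.down (by rw [← t2 _ _ _ a]; exact Finset.subset_union_right)
          fun i hi => (a i hi).symm))
    · refine ⟨_, opIso x x', rfl, JJ x x' (co d.1) ∪ τ (iso x x') (co d.1), ?_⟩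
      rintro _ rfl z h
      have a1 : Ag (τ (lo x) (co d.1)) z (co d.1) := fun i hi => h i (by simp [JJ, hi])
      have a2 : Ag (τ (hi x') (co d.1)) z (co d.1) := fun i hi => h i (by simp [JJ, hi])
      have a3 : Ag (τ (iso x x') (co d.1)) z (co d.1) := fun i hi => h i (by simp [hi])
      have a4 : Ag (JJ x x' (co d.1)) z (co d.1) := fun i hi => h i (by simp [hi])
      have p : pf x x' z = pf x x' (co d.1) := by
        simp only [pf, sd2 _ _ _ a1, sd2 _ _ _ a2]
        refine if_congr (exists_congr fun b => and_congr_right fun hb => ?_) rfl rfl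
        rw [h b (by simp [JJ, hb])]
      have q : JJ x x' z = JJ x x' (co d.1) := by simp only [JJ, t2 _ _ _ a1, t2 _ _ _ a2]
      simp only [G, p, q, sd2 _ _ _ a3]
      exact if_congr ⟨fun c => c.down subset_rfl fun i hi => (a4 i hi).symm,
        fun c => c.down subset_rfl a4⟩ rfl rfl
  · have nb := base d
    show d ∉ M (G (pr d.1) (co d.1))
    rcases hy : pr d.1 with x | x' | ⟨x, x'⟩ <;> rw [hy] at nb
    · exact nb
    · exact nb
    · simp only [G]
      split_ifs with c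
      exacts [nb, fun e => c ⟨d, e, hy, fun _ _ => rfl⟩]

theorem normB : NormalSpace DB := ⟨fun H L h1 h2 h3 => by
  obtain ⟨g, g1, g2⟩ := sep (fun p => bif p then L else H) (fun p => by cases p; exacts [h1, h2]) h3
  refine ⟨g ⁻¹' {true}, g ⁻¹' {false}, g1 _, g1 _, fun d hd => ?_, fun d hd => ?_,
    disjoint_left.2 fun d a b => Bool.noConfusion (a.symm.trans b)⟩
  · have := g2 d
    show g d = true
    cases c : g d
    · rw [c] at this; exact absurd hd this
    · rfl
  · have := g2 d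
    show g d = false
    cases c : g d
    · rfl
    · rw [c] at this; exact absurd hd this⟩

end Z

end Pool.Agent.H.MP_9641f2_gt
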